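import Pool.Agent.U987.BE.C

/-!
# Uniformly quasiconformal diffeomorphic approximation of self-maps of the ball

Let `f` be a self-map of the unit ball of `ℝⁿ` which is the identity near the boundary (extended by
the identity to `ℝⁿ`) and of local distortion at most `ρ`: near each point,
`a |p - q| ≤ |f p - f q| ≤ ρ a |p - q|` for some `a > 0` which depends on the point. Suppose that
`ρ² (√n - 1) < √n + 1`, and let `H > 2 ρ² / (1 + ρ² - (ρ² - 1) √n)`. There are `C^∞` diffeomorphisms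
`g j` of `ℝⁿ` with `g j (Bⁿ) = Bⁿ`, equal to the identity near the unit sphere and outside it, which
converge uniformly to `f` and are all quasiconformal with dilatation at most `Hⁿ`.

Proof. The `g j` are mollifications with radial kernels. By the four point inequality for reflected
pairs of points, the differential of `g j` at `x` multiplies lengths by at least
`a (1 + ρ² - (ρ² - 1) √n / θ) / (2 ρ)`, with `θ < 1` near `1`, and by at most `ρ a`.
-/

set_option autoImplicit false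

open Set Filter Topology Metric MeasureTheory
open scoped ContDiff

namespace Pool.Agent.Results.MP_183729_an.SmallLocalDistortion

/-- `ℝⁿ` -/
abbrev R (n : ℕ) : Type := EuclideanSpace ℝ (Fin n)

/-- near every point, `f` changes distances by factors between `a` and `ρ a`, for some `a > 0` which
depends on the point -/
def HasLocalDistortion {n : ℕ} (f : R n → R n) (ρ : ℝ) : Prop :=
  ∀ x, ∃ r > 0, ∃ a > 0, ∀ p ∈ ball x r, ∀ q ∈ ball x r,
    a * ‖p - q‖ ≤ ‖f p - f q‖ ∧ ‖f p - f q‖ ≤ ρ * (a * ‖p - q‖)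

/-- `g` is a diffeomorphism of `ℝⁿ` -/
def IsDiffeo {n : ℕ} (g : R n → R n) : Prop :=
  ContDiff ℝ ∞ g ∧ ∃ h : R n → R n, ContDiff ℝ ∞ h ∧ (∀ x, h (g x) = x) ∧ ∀ x, g (h x) = x

/-- the diffeomorphism `g` is `K`-quasiconformal: `‖Dg‖ⁿ ≤ K det Dg` everywhere -/
def IsQuasiconformal {n : ℕ} (K : ℝ) (g : R n → R n) : Prop :=
  ∀ x, ‖fderiv ℝ g x‖ ^ n ≤ K * (fderiv ℝ g x).det

/-- **Approximation by uniformly quasiconformal diffeomorphisms of the ball.** -/
theorem result (n : ℕ) (hn : 1 ≤ n) (ρ H s t : ℝ) (hρ : 1 ≤ ρ)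
    (hc : ρ ^ 2 * (Real.sqrt n - 1) < Real.sqrt n + 1) (hH0 : 0 < H)
    (hH : 2 * ρ ^ 2 < H * (1 + ρ ^ 2 - (ρ ^ 2 - 1) * Real.sqrt n))
    (hst : s < t) (ht : t < 1) (f : R n → R n) (hf : HasLocalDistortion f ρ)
    (hs : ∀ x, s ≤ ‖x‖ → f x = x) :
    ∃ g : ℕ → R n → R n,
      (∀ j, IsDiffeo (g j) ∧ g j '' ball 0 1 = ball 0 1 ∧ IsQuasiconformal (H ^ n) (g j)) ∧
      (∀ j x, t ≤ ‖x‖ → g j x = x) ∧
      ∃ C, ∀ (j : ℕ) x, ‖g j x - f x‖ ≤ C / (j + 1) := by
  obtain ⟨Λ, g, hg, hid, hcl, hqc⟩ :=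
    Pool.Agent.U987.BE.approx_qc (n := n) hn hρ (by linarith) hs hf (τ := t - s) (by linarith)
      hH hH0
  have hid' : ∀ j x, t ≤ ‖x‖ → g j x = x := fun j x hx => hid j x (by linarith)
  refine ⟨g, fun j => ⟨?_, ?_, ?_⟩, hid', Λ, hcl⟩
  · obtain ⟨h1, h, h2, h3, h4⟩ := Pool.Agent.Y522.smooth_inverse (hg j).2.1 (hg j).2.2
    exact ⟨h1, h, h2, h3, h4⟩
  · ext y
    constructor
    · rintro ⟨x, hx, rfl⟩
      rw [mem_ball_zero_iff] at hx ⊢
      by_contra h1
      push Not at h1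
      have h2 := (hg j).2.1.1 (hid' j (g j x) (ht.le.trans h1))
      rw [h2] at h1
      linarith
    · intro hy
      obtain ⟨x, rfl⟩ := (hg j).2.1.2 y
      refine ⟨x, ?_, rfl⟩
      rw [mem_ball_zero_iff] at hy ⊢
      by_contra h1
      push Not at h1
      rw [hid' j x (ht.le.trans h1)] at hy
      linarith
  · have hdl : ∀ x, ∃ l > 0, ‖fderiv ℝ (g j) x‖ ≤ H * l ∧ l ^ n ≤ |(fderiv ℝ (g j) x).det| := by
      intro x
      obtain ⟨l, hl, h1, h2⟩ := hqc j x
      exact ⟨l, hl, h1, Pool.Agent.U987.BE.det_low hl h2⟩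
    have hne : ∀ x, (fderiv ℝ (g j) x).det ≠ 0 := by
      intro x h0
      obtain ⟨l, hl, h1, h2⟩ := hdl x
      rw [h0, abs_zero] at h2
      have := pow_pos hl n
      linarith
    intro x
    have hpos := Pool.Agent.U987.BE.det_pos hn (hg j).1 (hid' j) hne x
    obtain ⟨l, hl, h1, h2⟩ := hdl x
    rw [abs_of_pos hpos] at h2
    calc ‖fderiv ℝ (g j) x‖ ^ n ≤ (H * l) ^ n := pow_le_pow_left₀ (norm_nonneg _) h1 n
      _ = H ^ n * l ^ n := mul_pow _ _ _
      _ ≤ H ^ n * (fderiv ℝ (g j) x).det := mul_le_mul_of_nonneg_left h2 (by positivity)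

end Pool.Agent.Results.MP_183729_an.SmallLocalDistortion
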